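import Pool.Agent.W805.LR.Stm7

/-!
# The cut torus consists of independent boxes
-/

set_option autoImplicit false

namespace Pool.Agent.W636.PD.CU

open Finset Equiv
open Pool.Agent.W805.LR Pool.Agent.W805.PD

/-- The point of box `b` with coordinates `u`. -/
def pt {d L M : ℕ} (p : (Fin d → Fin (L / M)) × (Fin d → Fin M)) : Fin d → ZMod L :=
  fun a => ((M * (p.1 a).val + (p.2 a).val : ℕ) : ZMod L)

lemma pt_lt {d L M : ℕ} (p : (Fin d → Fin (L / M)) × (Fin d → Fin M)) (a : Fin d) :
    M * (p.1 a).val + (p.2 a).val < L := by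
  have h1 := (p.1 a).isLt
  have h2 := (p.2 a).isLt
  have h3 : M * (L / M) ≤ L := Nat.mul_div_le L M
  have h4 : M * ((p.1 a).val + 1) ≤ M * (L / M) := Nat.mul_le_mul_left M h1
  have h5 : M * ((p.1 a).val + 1) = M * (p.1 a).val + M := by ring
  omega

lemma pt_val {d L M : ℕ} (p : (Fin d → Fin (L / M)) × (Fin d → Fin M)) (a : Fin d) :
    (pt p a).val = M * (p.1 a).val + (p.2 a).val := by
  unfold pt
  exact ZMod.val_natCast_of_lt (pt_lt p a)

lemma pt_div {d L M : ℕ} (p : (Fin d → Fin (L / M)) × (Fin d → Fin M)) (a : Fin d) :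
    (pt p a).val / M = (p.1 a).val := by
  rw [pt_val]
  have h2 := (p.2 a).isLt
  have hM : 0 < M := by omega
  rw [Nat.mul_add_div hM, Nat.div_eq_of_lt h2, add_zero]

lemma pt_inj {d L M : ℕ} :
    Function.Injective (pt : (Fin d → Fin (L / M)) × (Fin d → Fin M) → Fin d → ZMod L) := by
  intro p p' h
  have h1 : p.1 = p'.1 := by
    funext a
    apply Fin.ext
    rw [← pt_div p a, ← pt_div p' a, h]
  have h2 : p.2 = p'.2 := by
    funext a
    apply Fin.ext
    have e1 := pt_val p a
    have e2 := pt_val p' a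
    rw [h, e2, h1] at e1
    omega
  exact Prod.ext h1 h2

lemma pt_range {d L M : ℕ} [NeZero L] (hM : 1 ≤ M) (x : Fin d → ZMod L)
    (hx : ∀ a, (x a).val / M < L / M) :
    x ∈ Set.range (pt : (Fin d → Fin (L / M)) × (Fin d → Fin M) → Fin d → ZMod L) := by
  refine ⟨(fun a => ⟨(x a).val / M, hx a⟩, fun a => ⟨(x a).val % M, Nat.mod_lt _ hM⟩), ?_⟩
  funext a
  apply ZMod.val_injective
  rw [pt_val]
  exact Nat.div_add_mod _ _

lemma cut_left {d L M : ℕ} [NeZero L] (hM : 1 ≤ M) (φ : (Fin d → ℤ) → ℝ)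
    (x y : Fin d → ZMod L)
    (hx : x ∉ Set.range (pt : (Fin d → Fin (L / M)) × (Fin d → Fin M) → Fin d → ZMod L)) :
    cutJ M φ x y = 0 := by
  unfold cutJ
  rw [if_neg]
  intro h
  exact hx (pt_range hM x fun a => (h a).2)

lemma cut_right {d L M : ℕ} [NeZero L] (hM : 1 ≤ M) (φ : (Fin d → ℤ) → ℝ)
    (x y : Fin d → ZMod L)
    (hy : y ∉ Set.range (pt : (Fin d → Fin (L / M)) × (Fin d → Fin M) → Fin d → ZMod L)) :
    cutJ M φ x y = 0 := by
  unfold cutJ
  rw [if_neg]
  intro h
  exact hy (pt_range hM y fun a => by rw [← (h a).1]; exact (h a).2)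

lemma cut_pt {d L M : ℕ} (φ : (Fin d → ℤ) → ℝ) (b : Fin d → Fin (L / M))
    (u v : Fin d → Fin M) : cutJ M φ (pt (b, u) : Fin d → ZMod L) (pt (b, v)) = freeJ φ u v := by
  unfold cutJ freeJ
  rw [if_pos]
  · congr 1
    funext a
    rw [pt_val, pt_val]
    push_cast
    ring
  · intro a
    rw [pt_div, pt_div]
    exact ⟨rfl, (b a).isLt⟩

lemma cut_ne {d L M : ℕ} (φ : (Fin d → ℤ) → ℝ) (b c : Fin d → Fin (L / M))
    (u v : Fin d → Fin M) (hbc : b ≠ c) :
    cutJ M φ (pt (b, u) : Fin d → ZMod L) (pt (c, v)) = 0 := by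
  unfold cutJ
  rw [if_neg]
  intro h
  apply hbc
  funext a
  have := (h a).1
  rw [pt_div, pt_div] at this
  exact Fin.ext this

lemma cut_nonneg {d L M : ℕ} (φ : (Fin d → ℤ) → ℝ) (hφ : IsKer d φ)
    (x y : Fin d → ZMod L) : 0 ≤ cutJ M φ x y := by
  unfold cutJ
  split_ifs
  · exact hφ.nonneg _
  · exact le_rfl

lemma ee_unit (J : Unit → Unit → ℝ) (t : ℝ) (F : Perm Unit → ℝ) (h0 : ∀ g, 0 ≤ F g)
    (h1 : ∀ g, F g ≤ 1) : |EE J t F| ≤ 1 := by
  unfold EE
  rw [Fintype.sum_unique, Fintype.sum_unique]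
  by_cases hm : stirMass J t default = 0
  · rw [hm]; simp
  · rw [mul_div_assoc, mul_div_cancel₀ _ hm, abs_of_nonneg (h0 _)]
    exact h1 _

lemma ee_cnt {V : Type} [Fintype V] [DecidableEq V] (J : V → V → ℝ) (t s : ℝ) :
    EE J t (fun g => cnt fun v => len g v < s) =
      ∑ v, EE J t (fun g => if len g v < s then 1 else 0) := by
  unfold EE
  rw [← Finset.sum_div, Finset.sum_comm]
  congr 1
  refine Finset.sum_congr rfl fun g _ => ?_
  rw [← Finset.mul_sum]
  congr 1

theorem main : S_sub → S_cut := by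
  intro hsub d L M _ φ s t hφ hM
  refine ⟨?_, ?_⟩
  · rw [← Fintype.sum_of_injective (pt : (Fin d → Fin (L / M)) × (Fin d → Fin M) → Fin d → ZMod L)
      pt_inj (fun p => ∑ y : Fin d → ZMod L, cutJ M φ (pt p) y)
      (fun x => ∑ y : Fin d → ZMod L, cutJ M φ x y)
      (fun x hx => Finset.sum_eq_zero fun y _ => cut_left hM φ x y hx) (fun p => rfl)]
    rw [Fintype.sum_prod_type]
    have key : ∀ (b : Fin d → Fin (L / M)) (u : Fin d → Fin M),
        ∑ y : Fin d → ZMod L, cutJ M φ (pt (b, u)) y = ∑ v, freeJ φ u v := by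
      intro b u
      rw [← Fintype.sum_of_injective
        (pt : (Fin d → Fin (L / M)) × (Fin d → Fin M) → Fin d → ZMod L)
        pt_inj (fun p => cutJ M φ (pt (b, u)) (pt p))
        (fun y => cutJ M φ (pt (b, u)) y)
        (fun y hy => cut_right hM φ _ y hy) (fun p => rfl)]
      rw [Fintype.sum_prod_type, Finset.sum_eq_single b]
      · exact Finset.sum_congr rfl fun v _ => cut_pt φ b u v
      · intro c _ hc
        exact Finset.sum_eq_zero fun v _ => cut_ne φ b c u v (Ne.symm hc)
      · intro h; exact absurd (Finset.mem_univ _) h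
    simp only [key]
    rw [Finset.sum_const, nsmul_eq_mul]
    congr 1
    simp
  · rw [ee_cnt, ee_cnt]
    have h1 : ∀ (b : Fin d → Fin (L / M)) (u : Fin d → Fin M),
        EE (fun x y : Fin d → ZMod L => cutJ M φ x y) t
          (fun g => if len g (pt (b, u)) < s then 1 else 0) =
        EE (fun u v : Fin d → Fin M => freeJ φ u v) t
          (fun h => if len h u < s then 1 else 0) := by
      intro b u
      have h2 := hsub (Fin d → Fin M) (Fin d → ZMod L)
        ⟨fun u => pt (b, u), fun u u' h => (Prod.mk.inj (pt_inj h)).2⟩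
        (fun x y => cutJ M φ x y) t s u (fun x y => cut_nonneg φ hφ x y) (by
          intro u v hv
          by_cases hr : v ∈ Set.range (pt : (Fin d → Fin (L / M)) × (Fin d → Fin M) →
              Fin d → ZMod L)
          · obtain ⟨⟨c, w⟩, rfl⟩ := hr
            have hbc : b ≠ c := by
              rintro rfl
              exact hv ⟨w, rfl⟩
            exact ⟨cut_ne φ b c u w hbc, cut_ne φ c b w u (Ne.symm hbc)⟩
          · exact ⟨cut_right hM φ _ _ hr, cut_left hM φ _ _ hr⟩)
      have h3 : (fun a c : Fin d → Fin M => cutJ M φ (pt (b, a) : Fin d → ZMod L) (pt (b, c))) =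
          fun u v => freeJ φ u v := by
        funext a c
        exact cut_pt φ b a c
      refine h2.trans ?_
      exact congrArg (fun J => EE J t (fun h => if len h u < s then 1 else 0)) h3
    have h4 : ∀ x : Fin d → ZMod L,
        x ∉ Set.range (pt : (Fin d → Fin (L / M)) × (Fin d → Fin M) → Fin d → ZMod L) →
        |EE (fun x y : Fin d → ZMod L => cutJ M φ x y) t
          (fun g => if len g x < s then 1 else 0)| ≤ 1 := by
      intro x hx
      have h2 := hsub Unit (Fin d → ZMod L) ⟨fun _ => x, fun _ _ _ => rfl⟩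
        (fun x y => cutJ M φ x y) t s () (fun x y => cut_nonneg φ hφ x y) (by
          intro u v hv
          exact ⟨cut_left hM φ _ _ hx, cut_right hM φ _ _ hx⟩)
      refine (congrArg abs h2).le.trans ?_
      apply ee_unit
      · intro g; split_ifs <;> norm_num
      · intro g; split_ifs <;> norm_num
    set G : (Fin d → ZMod L) → ℝ := fun x => EE (fun x y : Fin d → ZMod L => cutJ M φ x y) t
          (fun g => if len g x < s then 1 else 0) with hG
    classical
    set R : Finset (Fin d → ZMod L) := Finset.univ.image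
      (pt : (Fin d → Fin (L / M)) × (Fin d → Fin M) → Fin d → ZMod L) with hR
    have h5 : ∑ x, G x = ∑ x ∈ R, G x + ∑ x ∈ Rᶜ, G x := (Finset.sum_add_sum_compl R G).symm
    have h6 : ∑ x ∈ R, G x = ((L / M : ℕ) : ℝ) ^ d * ∑ u : Fin d → Fin M,
        EE (fun u v : Fin d → Fin M => freeJ φ u v) t
          (fun h => if len h u < s then 1 else 0) := by
      rw [hR, Finset.sum_image (fun a _ b _ h => pt_inj h), Fintype.sum_prod_type]
      have : ∀ b : Fin d → Fin (L / M), ∑ u : Fin d → Fin M, G (pt (b, u)) =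
          ∑ u : Fin d → Fin M, EE (fun u v : Fin d → Fin M => freeJ φ u v) t
          (fun h => if len h u < s then 1 else 0) := by
        intro b
        exact Finset.sum_congr rfl fun u _ => h1 b u
      simp only [this]
      rw [Finset.sum_const, nsmul_eq_mul]
      congr 1
      simp
    have h7 : (Rᶜ.card : ℝ) = (L : ℝ) ^ d - ((M * (L / M) : ℕ) : ℝ) ^ d := by
      rw [Finset.card_compl, Nat.cast_sub (Finset.card_le_univ _)]
      have e1 : Fintype.card (Fin d → ZMod L) = L ^ d := by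
        rw [Fintype.card_fun, ZMod.card, Fintype.card_fin]
      have e2 : R.card = (M * (L / M)) ^ d := by
        rw [hR, Finset.card_image_of_injective _ pt_inj, Finset.card_univ, Fintype.card_prod,
          Fintype.card_fun, Fintype.card_fun, Fintype.card_fin, Fintype.card_fin,
          Fintype.card_fin, mul_comm, mul_pow]
      rw [e1, e2]
      push_cast
      ring
    rw [h5, h6, add_sub_cancel_left, ← h7]
    calc |∑ x ∈ Rᶜ, G x| ≤ ∑ x ∈ Rᶜ, |G x| := Finset.abs_sum_le_sum_abs _ _
      _ ≤ ∑ x ∈ Rᶜ, (1 : ℝ) := Finset.sum_le_sum fun x hx => h4 x (by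
          rintro ⟨p, rfl⟩
          rw [Finset.mem_compl] at hx
          exact hx (Finset.mem_image_of_mem _ (Finset.mem_univ _)))
      _ = (Rᶜ.card : ℝ) := by simp

end Pool.Agent.W636.PD.CU
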